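import Mathlib
import Pool.Agent.Helper663.OrbDefs
import Pool.Agent.Helper663.OrbEval

/-!
# Torsion in the reduced homology of the intersection lattice of an orbit arrangement

For `λ = (7, 5, 4, 3, 2, 2, 2)`, a partition of `25`, the reduced homology of `Π_λ` in
dimension `4` contains an element of order `2`.

Idea: below the partition `X` with block sizes `7, 7, 7, 4` the possible types form a poset whose
order complex is a projective plane; a triple suspension of it is mapped into the
proper part of `Π_λ` with the help of three commuting transpositions, and a mod `2` cocycle
detects the resulting class.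
-/

namespace Pool.Agent.Results.MP_5a3b5e_co.OrbitTorsion

open Pool.Agent.Helper663.Orb

/-- sanity check: the partition into singletons is the empty join -/
theorem bot_mem {n : ℕ} (lam : n.Partition) : (⊥ : Setoid (Fin n)) ∈ PiLam lam :=
  ⟨∅, by simp, by simp⟩

/-- sanity check: the one-block partition is a join of partitions of the shape in question -/
theorem top_mem : (⊤ : Setoid (Fin 25)) ∈ PiLam lam25 := by
  obtain ⟨s, hs, _⟩ := exists_below (Phi_mem valid_rX) (Phi_ne_bot rX)
  exact mem_PiLam_of_le lam25_ge hs le_top

/-- sanity check: the boundary maps form a chain complex -/
theorem boundary_comp {P : Type} [PartialOrder P] (k : ℕ) (x : Simplex P (k + 2) →₀ ℤ) :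
    boundary P k (boundary P (k + 1) x) = 0 :=
  boundary_boundary k x

/-- There are `n` and a partition `lam` of `n` with a part at least `2` such that some reduced
homology group of the order complex of the proper part of `Π_lam`, with integer
coefficients, has a nonzero element of finite order. -/
theorem result : ∃ (n : ℕ) (lam : n.Partition), (∃ k ∈ lam.parts, 2 ≤ k) ∧
    ∃ i : ℕ, HasTorsion (ProperPart lam) i :=
  ⟨25, lam25, ⟨7, by unfold lam25; decide, by norm_num⟩, 4, torsion_class⟩

end Pool.Agent.Results.MP_5a3b5e_co.OrbitTorsion
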